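import Pool.Agent.X213.PI.Trans
import Pool.Agent.Results.MP_43d240_ag.CurveTimesElliptic
import Pool.Agent.Results.MP_43d240_ag.FactorialBound
import Pool.Agent.Results.MP_43d240_ag.RealMultiplication

/-!
# Unramified period-index for varieties dominated by products of curves and abelian varieties

Let `K ⊆ M` be a finite extension of function fields over an algebraically closed field `k`, for
instance `K = k(X)`, `M = k(Y)`, where `Y → X` is a generically finite dominant rational map, for
instance the quotient by a finite group. Let `n` be prime to the characteristic and `m` the product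
of a divisor `m` of the degree such that `[M : K] / m` is prime to `n` (for instance the part of the
degree composed of the primes dividing `n`; `m = 1` if the degree is prime to `n`).

We prove that the index of a class `α` of order dividing `n` (a combination of symbols of degree
`n`, by the theorem of Merkurjev and Suslin) divides `m` times the index of its restriction to `M`.
Hence the results on products of a curve with elliptic curves, on families of abelian varieties and
on abelian varieties with real multiplication hold up to the factor `m` for all varieties which are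
dominated by such a variety: if `X`, of dimension `d`, is dominated by a product of a curve and
`d - 1` elliptic curves by a map of degree `m m'`, `m'` prime to `n`, then `ind α ∣ m n^(d - 1)`
for all unramified classes of order `n`; and `ind α ∣ n^(d - 1)` if the degree is prime to `n`. This
holds for the quotients of such products by finite groups of order prime to `n`, for example for the
classes of odd order on the products of a curve and a Kummer surface of a product of elliptic curves.

The proof. Let `D` be the division algebra of the class `α`, of degree `d`. Then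
`M ⊗ D = M_t(E)`, `d = t s`, `s` the degree of the division algebra `E`. The columns `E^t` are a
`D`-vector space, of dimension `t [M : K] s^2` over `K`, so that `d^2 ∣ t [M : K] s^2` and
`t ∣ [M : K]`. And `d` divides a power of `n`.
-/

set_option autoImplicit false

namespace Pool.Agent.Results.MP_43d240_ag.QuotientsOfProducts

open Pool.Agent.Helper18.Br Pool.Agent.H552R3.SymBr Pool.Agent.H552R3.SymPred

universe u

/-- The classes generated by the symbols of degree `n` with entries in the set `S`. -/
def Symbols {K : Type u} [Field K] (n : ℕ) (ζ : K) (S : Set Kˣ) : Subgroup (BrauerGroup.{u, u} K) :=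
  Subgroup.closure {γ | ∃ a ∈ S, ∃ b ∈ S, IsSym n ζ a b γ}

theorem result {k K M : Type u} [Field k] [IsAlgClosed k] [Field K] [Algebra k K] [Field M]
    [Algebra k M] [Algebra K M] [IsScalarTower k K M] [FiniteDimensional K M]
    (n : ℕ) (hn : 0 < n) (ζ : k) (hζ : IsPrimitiveRoot ζ n)
    -- the degree is `m m'`, where `m'` is prime to `n`
    (m m' : ℕ) (hm : Module.finrank K M = m * m') (hm' : m'.Coprime n)
    (α : BrauerGroup.{u, u} K) (hα : α ∈ Symbols n (algebraMap k K ζ) Set.univ) :
    -- the index of `α` divides `m` times the index of its restriction to `M`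
    (∀ N : ℕ, IndDvd (res M α) N → IndDvd α (m * N)) ∧
    -- products of a curve (with function field `L`) and elliptic curves
    (∀ (L : IntermediateField k M), Algebra.trdeg k L ≤ 1 → ∀ (r : ℕ) (e f : Fin r → Mˣ),
      (∀ i, ¬ AlgebraicIndependent k ![(e i : M), (f i : M)] ∨
        (∃ c ∈ L, ∃ d ∈ L, c ≠ 0 ∧ d ≠ 0 ∧ c * e i + d * f i = 1)) →
      res M α ∈ Symbols n (algebraMap k M ζ)
        (Subgroup.closure ({x : Mˣ | (x : M) ∈ L} ∪ Set.range e ∪ Set.range f)) →
      IndDvd α (m * n ^ r)) ∧
    -- families of abelian varieties of dimension `g` over a curve (with function field `L`)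
    (∀ (L : IntermediateField k M), Algebra.trdeg k L ≤ 1 → ∀ (g : ℕ) (x y : Fin g → Mˣ)
      (θ : Fin g → BrauerGroup.{u, u} M), (∀ i, IsSym n (algebraMap k M ζ) (x i) (y i) (θ i)) →
      ∏ i, θ i ∈ Subgroup.closure {γ | ∃ a b : Mˣ, (a : M) ∈ L ∧
        ((b : M) ∈ L ∨ b ∈ Set.range x ∨ b ∈ Set.range y) ∧ IsSym n (algebraMap k M ζ) a b γ} →
      res M α ∈ Symbols n (algebraMap k M ζ)
        (Subgroup.closure ({a : Mˣ | (a : M) ∈ L} ∪ Set.range x ∪ Set.range y)) →
      IndDvd α (m * (n ^ g * ∏ p ∈ n.primeFactors, p ^ (g.factorial.factorization p)))) ∧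
    -- abelian varieties of dimension `g` with real multiplication
    (Squarefree n → ∀ (g : ℕ), 0 < g → ∀ (z : Fin g ⊕ Fin g → Mˣ)
      (θ : Fin g ⊕ Fin g → Fin g ⊕ Fin g → BrauerGroup.{u, u} M),
      (∀ u v, IsSym n (algebraMap k M ζ) (z u) (z v) (θ u v)) →
      ∀ w : Fin g → Fin g ⊕ Fin g → Fin g ⊕ Fin g → ℤ,
      (∀ p : ℕ, p.Prime → p ∣ n → ¬ p ∣ Nat.card {c : Fin g → ZMod p //
        (∑ i, c i • (Matrix.of fun u v => ((w i u v - w i v u : ℤ) : ZMod p))).det = 0}) →
      (∀ i, ∏ u, ∏ v, θ u v ^ w i u v = 1) →
      res M α ∈ Symbols n (algebraMap k M ζ) (Subgroup.closure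
        (Set.range (Units.map (algebraMap k M).toMonoidHom) ∪ Set.range z)) →
      IndDvd α (m * n ^ (g - 1))) := by
  have hζK : IsPrimitiveRoot (algebraMap k K ζ) n := hζ.map_of_injective (algebraMap k K).injective
  have hζM : IsPrimitiveRoot (algebraMap k M ζ) n := hζ.map_of_injective (algebraMap k M).injective
  have hα' : α ∈ Subgroup.closure {γ | ∃ a b : Kˣ, IsSym n (algebraMap k K ζ) a b γ} := by
    refine Subgroup.closure_mono ?_ hα
    rintro γ ⟨a, -, b, -, h⟩
    exact ⟨a, b, h⟩
  have htr : ∀ N : ℕ, IndDvd (res M α) N → IndDvd α (m * N) := fun N h =>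
    Pool.Agent.X213.PI.transfer_prime hn hζK hα' hm hm' h
  refine ⟨htr, ?_, ?_, ?_⟩
  · intro L hL r e f hef hG
    exact htr _ (CurveTimesElliptic.result n hn (algebraMap k M ζ) hζM L hL r e f hef _ rfl _ hG)
  · intro L hL g x y θ hθ hpol hG
    exact htr _ ((FactorialBound.result n hn ζ hζ L g x y θ hθ hpol _ rfl _ rfl _ hG).1 hL).1
  · intro hsq g hg z θ hθ w hord hrel hG
    exact htr _ ((RealMultiplication.result.{u, 0}.1 n hn (algebraMap k M ζ) hζM g hg z θ hθ w hord).2 hsq
      hrel _ rfl _ hG).2

end Pool.Agent.Results.MP_43d240_ag.QuotientsOfProducts
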